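import Pool.Agent.Helper68.PT.Ext2
import Pool.Agent.Helper50.ETH.Defs

/-!
# ETH, C2a: truncated powers and the parameters in polynomial time

`pw b e P = min (b ^ e) (P + 1)` is computed in polynomial time (numbers are unary). If
`bound n ≤ P` then all the powers that occur in `word n cl` are exact.
-/

set_option autoImplicit false

namespace Pool.Agent.Helper22.ETH

open Pool.Agent.Helper36 Pool.Agent.Helper36.PT Pool.Agent.Helper50.ETH

variable {α : Type} [Enc α]

/-- The truncated power `min (b ^ e) (P + 1)`. -/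
def pw (b e P : ℕ) : ℕ := PT.recN 1 (fun _ x => min (x * b) (P + 1)) e

theorem pw_succ (b e P : ℕ) : pw b (e + 1) P = min (pw b e P * b) (P + 1) := rfl

theorem pw_eq (b e P : ℕ) : pw b e P = min (b ^ e) (P + 1) := by
  induction e with
  | zero =>
    change 1 = min (b ^ 0) (P + 1)
    rw [pow_zero]
    omega
  | succ e ih =>
    rw [pw_succ, ih]
    rcases Nat.eq_zero_or_pos b with hb | hb
    · subst hb
      simp
    · rcases le_total (b ^ e) (P + 1) with h | h
      · rw [min_eq_left h, pow_succ]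
      · rw [min_eq_right h]
        have h1 : P + 1 ≤ (P + 1) * b := Nat.le_mul_of_pos_right _ hb
        have h2 : P + 1 ≤ b ^ (e + 1) := by
          rw [pow_succ]
          exact h1.trans (Nat.mul_le_mul_right b h)
        rw [min_eq_right h1, min_eq_right h2]

theorem pw_of_le {b e P : ℕ} (h : b ^ e ≤ P) : pw b e P = b ^ e := by
  rw [pw_eq]
  omega

theorem pw_le (b e P : ℕ) : pw b e P ≤ P + 1 := by
  rw [pw_eq]
  omega

@[fun_prop]
theorem pw_pt {b e P : α → ℕ} (hb : PolyTime b) (he : PolyTime e) (hP : PolyTime P) :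
    PolyTime (fun a => pw (b a) (e a) (P a)) := by
  have hh : PolyTime (fun p : (α × ℕ) × ℕ => min (p.2 * b p.1.1) (P p.1.1 + 1)) := by fun_prop
  have h := PolyTime.recN (n := e) (g := fun _ : α => 1)
    (h := fun a _ x => min (x * b a) (P a + 1)) he (by fun_prop) hh
    ⟨fun a => P a + 1, (bdd_nat hP).add (Bdd.const 1), by
        intro a i _
        rw [esz_nat]
        exact pw_le (b a) i (P a)⟩
  exact h

theorem log2_eq (x : ℕ) : Nat.log 2 x = PT.mu (x + 1) (fun i => x < 2 ^ (i + 1)) := by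
  have h1 : ∃ i < x + 1, x < 2 ^ (i + 1) :=
    ⟨Nat.log 2 x, Nat.lt_succ_of_le (Nat.log_le_self 2 x), Nat.lt_pow_succ_log_self (by omega) x⟩
  obtain ⟨h2, h3⟩ := mu_spec h1
  refine le_antisymm ?_ ?_
  · have h4 := Nat.log_lt_of_lt_pow' (b := 2) (by omega : PT.mu (x + 1) (fun i => x < 2 ^ (i + 1)) + 1 ≠ 0) h3
    omega
  · by_contra hlt
    push Not at hlt
    exact mu_min (n := x + 1) (Q := fun i => x < 2 ^ (i + 1)) hlt
      (Nat.lt_pow_succ_log_self (by omega) x)

@[fun_prop]
theorem log2_pt {f : α → ℕ} (hf : PolyTime f) : PolyTime (fun a => Nat.log 2 (f a)) := by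
  have h : PolyTime (fun a => PT.mu (f a + 1) (fun i => f a < pw 2 (i + 1) (f a))) := by
    refine PolyTime.mu' (by fun_prop) ?_
    fun_prop
  refine h.congr fun a => ?_
  rw [log2_eq]
  congr 1
  funext i
  rw [pw_eq]
  refine propext ⟨fun h => ?_, fun h => ?_⟩ <;> omega

@[fun_prop]
theorem k0_pt {f : α → ℕ} (hf : PolyTime f) : PolyTime (fun a => k0 (f a)) := by
  unfold k0
  refine PolyTime.mu' (by fun_prop) ?_
  fun_prop

@[fun_prop]
theorem kap_pt {f : α → ℕ} (hf : PolyTime f) : PolyTime (fun a => kap (f a)) := by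
  unfold kap
  fun_prop

@[fun_prop]
theorem rr_pt {f : α → ℕ} (hf : PolyTime f) : PolyTime (fun a => rr (f a)) := by
  unfold rr
  fun_prop

@[fun_prop]
theorem gg_pt {f : α → ℕ} (hf : PolyTime f) : PolyTime (fun a => gg (f a)) := by
  unfold gg
  fun_prop

@[fun_prop]
theorem DD_pt {f : α → ℕ} (hf : PolyTime f) : PolyTime (fun a => DD (f a)) := by
  unfold DD
  fun_prop

@[fun_prop]
theorem mm_pt {f : α → ℕ} (hf : PolyTime f) : PolyTime (fun a => mm (f a)) := by
  unfold mm
  fun_prop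

@[fun_prop]
theorem qq_pt {f : α → ℕ} (hf : PolyTime f) : PolyTime (fun a => qq (f a)) := by
  unfold qq
  refine PolyTime.mu' (by fun_prop) ?_
  fun_prop

/-! ### Inequalities -/

theorem kap_ge (n : ℕ) : 2 ≤ kap n := by
  unfold kap
  omega

theorem DD_ge (n : ℕ) : 4 ≤ DD n := by
  have h := Nat.pow_le_pow_left (kap_ge n) 2
  unfold DD
  omega

theorem mm_ge (n : ℕ) : 64 ≤ mm n := by
  have h := Nat.pow_le_pow_left (DD_ge n) 3
  unfold mm
  omega

theorem qq_spec (n : ℕ) : qq n < 2 * mm n + 1 ∧ mm n ≤ qq n ∧ (qq n).Prime := by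
  obtain ⟨p, hp, h1, h2⟩ := Nat.exists_prime_lt_and_le_two_mul (mm n) (by have := mm_ge n; omega)
  exact mu_spec (n := 2 * mm n + 1) (Q := fun q => mm n ≤ q ∧ q.Prime)
    ⟨p, by omega, h1.le, hp⟩

theorem nV_le_bound (n : ℕ) : nV n ≤ bound n := by
  unfold bound
  omega

theorem nE_le_bound (n : ℕ) : nE n ≤ bound n := by
  unfold bound
  omega

theorem big_le_bound (n : ℕ) : (nV n + 1) ^ (2 * kap n + 2) ≤ bound n := by
  unfold bound
  omega

/-- `2 ^ e`, `e ≤ 3 g`. -/
theorem two_le_bound {n e : ℕ} (he : e ≤ 3 * gg n) : 2 ^ e ≤ bound n := by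
  have h1 : 2 ^ e ≤ 2 ^ (3 * gg n) := Nat.pow_le_pow_right (by omega) he
  have h2 : 2 ^ (3 * gg n) ≤ nV n := Nat.le_mul_of_pos_left _ (by have := mm_ge n; omega)
  exact h1.trans (h2.trans (nV_le_bound n))

/-- `i ^ c`, `i < m`, `c < κ`. -/
theorem idx_le_bound {n i c : ℕ} (hi : i < mm n) (hc : c < kap n) : i ^ c ≤ bound n := by
  refine le_trans ?_ (big_le_bound n)
  have h2 : mm n ≤ nV n := Nat.le_mul_of_pos_right _ (by positivity)
  calc i ^ c ≤ (nV n + 1) ^ c := Nat.pow_le_pow_left (by omega) c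
    _ ≤ (nV n + 1) ^ (2 * kap n + 2) := Nat.pow_le_pow_right (by omega) (by omega)

/-- `q ^ j`, `j ≤ D`. -/
theorem qq_le_bound {n j : ℕ} (hj : j ≤ DD n) : qq n ^ j ≤ bound n := by
  have h0 : 0 < qq n := (qq_spec n).2.2.pos
  have h1 : qq n ^ j ≤ qq n ^ DD n := Nat.pow_le_pow_right h0 hj
  have h2 : qq n ^ DD n ≤ nE n := Nat.le_mul_of_pos_left _ (by have := mm_ge n; omega)
  exact h1.trans (h2.trans (nE_le_bound n))

/-! ### Exact powers -/

theorem pw_two {n P e : ℕ} (h : bound n ≤ P) (he : e ≤ 3 * gg n) : pw 2 e P = 2 ^ e :=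
  pw_of_le ((two_le_bound he).trans h)

theorem pw_idx {n P i c : ℕ} (h : bound n ≤ P) (hi : i < mm n) (hc : c < kap n) :
    pw i c P = i ^ c := pw_of_le ((idx_le_bound hi hc).trans h)

theorem pw_qq {n P j : ℕ} (h : bound n ≤ P) (hj : j ≤ DD n) : pw (qq n) j P = qq n ^ j :=
  pw_of_le ((qq_le_bound hj).trans h)

/-! ### The test -/

/-- `bound` with truncated powers. -/
noncomputable def boundT (n P : ℕ) : ℕ :=
  (mm n * pw 2 (3 * gg n) P) + (mm n * pw (qq n) (DD n) P) +
    (mm n * pw (qq n) (DD n) P + 1) * (mm n * pw 2 (3 * gg n) P + 1) +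
      pw (mm n * pw 2 (3 * gg n) P + 1) (2 * kap n + 2) P + 2

theorem boundT_iff (n P : ℕ) : boundT n P ≤ P ↔ bound n ≤ P := by
  have hm : 0 < mm n := by have := mm_ge n; omega
  constructor
  · intro h
    have e1 : pw 2 (3 * gg n) P = 2 ^ (3 * gg n) := by
      have h1 : pw 2 (3 * gg n) P ≤ mm n * pw 2 (3 * gg n) P := Nat.le_mul_of_pos_left _ hm
      have h2 : pw 2 (3 * gg n) P ≤ P := by
        unfold boundT at h
        omega
      rw [pw_eq] at h2 ⊢
      omega
    have e2 : pw (qq n) (DD n) P = qq n ^ DD n := by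
      have h1 : pw (qq n) (DD n) P ≤ mm n * pw (qq n) (DD n) P := Nat.le_mul_of_pos_left _ hm
      have h2 : pw (qq n) (DD n) P ≤ P := by
        unfold boundT at h
        omega
      rw [pw_eq] at h2 ⊢
      omega
    unfold boundT at h
    rw [e1, e2] at h
    have e3 : pw (mm n * 2 ^ (3 * gg n) + 1) (2 * kap n + 2) P =
        (mm n * 2 ^ (3 * gg n) + 1) ^ (2 * kap n + 2) := by
      have h2 : pw (mm n * 2 ^ (3 * gg n) + 1) (2 * kap n + 2) P ≤ P := by omega
      rw [pw_eq] at h2 ⊢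
      omega
    rw [e3] at h
    exact h
  · intro h
    have e1 := pw_two h le_rfl
    have e2 := pw_qq h le_rfl
    have e3 : pw (nV n + 1) (2 * kap n + 2) P = (nV n + 1) ^ (2 * kap n + 2) :=
      pw_of_le ((big_le_bound n).trans h)
    unfold boundT
    rw [e1, e2]
    change nV n + nE n + (nE n + 1) * (nV n + 1) + pw (nV n + 1) (2 * kap n + 2) P + 2 ≤ P
    rw [e3]
    exact h

/-- The test `bound n ≤ P` in polynomial time. -/
@[fun_prop]
theorem bound_pt {f P : α → ℕ} (hf : PolyTime f) (hP : PolyTime P) :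
    PolyTime (fun a => bound (f a) ≤ P a) := by
  have h : PolyTime (fun a => boundT (f a) (P a) ≤ P a) := by
    unfold boundT
    fun_prop
  refine h.congr fun a => propext (boundT_iff _ _)

end Pool.Agent.Helper22.ETH
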